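import Pool.Agent.Helper47.JN.RK
import Pool.Agent.Helper2.JN.SSX
import Pool.Agent.Helper70.JN.BoxDim
import Pool.Agent.Helper70.JN.Greedy

/-!
Project LS5 (MP_9a3c31_nt), row GCDA: the abstract gcd theorem. If `f`, `g` are relatively prime
polynomials and `f(w)`, `g(w)` are both divisible by `d` in `D.O`, then the product of the
absolute values of `d` is at most `1`.
-/

set_option autoImplicit false

namespace Pool.Agent.Helper20.LS5

open Finset Submodule MvPolynomial Filter Pool.Agent.Helper71.JN Pool.Agent.Helper70.JN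
  Pool.Agent.Helper47.JN

/-- (GCDA) the abstract gcd theorem -/
def ST_GCDA : Prop := ∀ (F Ω : Type) [Field F] [Field Ω] [Algebra F Ω] (I : Type) [Fintype I]
  (r : ℕ) (D : SSF F Ω I r) (f g : MvPolynomial (Fin r) F) (d a b : Ω), f ≠ 0 → g ≠ 0 →
  IsRelPrime f g → a ∈ D.O → b ∈ D.O → D.ev f = d * a → D.ev g = d * b →
  ∏ i, D.nu i d ≤ 1

section dim
variable {F : Type} [Field F] {r : ℕ}

/-- multiples of `f` by the elements of a box -/
noncomputable def mulBox (f : MvPolynomial (Fin r) F) (L : Fin r → ℕ) :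
    Submodule F (MvPolynomial (Fin r) F) :=
  (restrictSupport F (bs L)).map (LinearMap.mulLeft F f)

theorem mem_mulBox {f : MvPolynomial (Fin r) F} {L : Fin r → ℕ} {h : MvPolynomial (Fin r) F} :
    h ∈ mulBox f L ↔ ∃ p ∈ restrictSupport F (bs L), f * p = h := by
  unfold mulBox
  rw [Submodule.mem_map]
  rfl

theorem finrank_mulBox (f : MvPolynomial (Fin r) F) (hf : f ≠ 0) (L : Fin r → ℕ) :
    Module.finrank F (mulBox f L) = ∏ j, L j := by
  rw [← finrank_bs (F := F) L]
  exact ((Submodule.equivMapOfInjective (LinearMap.mulLeft F f)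
    (mul_right_injective₀ hf) _).finrank_eq).symm

theorem finite_mulBox (f : MvPolynomial (Fin r) F) (L : Fin r → ℕ) :
    Module.Finite F (mulBox f L) := by
  have := finite_bs (F := F) L
  unfold mulBox
  infer_instance

theorem inf_mulBox (f g : MvPolynomial (Fin r) F) (hf : f ≠ 0) (hg : g ≠ 0)
    (h : IsRelPrime f g) (M : ℕ) :
    mulBox f (fun j => M - f.degreeOf j) ⊓ mulBox g (fun j => M - g.degreeOf j)
      = mulBox (f * g) (fun j => M - f.degreeOf j - g.degreeOf j) := by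
  ext x
  rw [Submodule.mem_inf, mem_mulBox, mem_mulBox, mem_mulBox]
  constructor
  · rintro ⟨⟨p, hp, rfl⟩, ⟨q, hq, hpq⟩⟩
    have h1 : f ∣ g * q := ⟨p, hpq⟩
    have h2 : f ∣ q := h.dvd_of_dvd_mul_left h1
    obtain ⟨t, rfl⟩ := h2
    refine ⟨t, ?_, by rw [← hpq]; ring⟩
    by_cases ht : t = 0
    · rw [ht]
      exact zero_mem _
    · rw [mem_bs_iff ht]
      rw [mem_bs_iff (mul_ne_zero hf ht)] at hq
      intro j
      have h3 := hq j
      rw [degreeOf_mul_eq hf ht] at h3
      omega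
  · rintro ⟨t, ht, rfl⟩
    by_cases ht0 : t = 0
    · subst ht0
      exact ⟨⟨0, zero_mem _, by ring⟩, ⟨0, zero_mem _, by ring⟩⟩
    · rw [mem_bs_iff ht0] at ht
      refine ⟨⟨g * t, ?_, by ring⟩, ⟨f * t, ?_, by ring⟩⟩
      · rw [mem_bs_iff (mul_ne_zero hg ht0)]
        intro j
        have h3 := ht j
        rw [degreeOf_mul_eq hg ht0]
        omega
      · rw [mem_bs_iff (mul_ne_zero hf ht0)]
        intro j
        have h3 := ht j
        rw [degreeOf_mul_eq hf ht0]
        omega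

/-- the part of the ideal of `f` and `g` in the box -/
noncomputable def WW (f g : MvPolynomial (Fin r) F) (M : ℕ) :
    Submodule F (MvPolynomial (Fin r) F) :=
  mulBox f (fun j => M - f.degreeOf j) ⊔ mulBox g (fun j => M - g.degreeOf j)

theorem finite_WW (f g : MvPolynomial (Fin r) F) (M : ℕ) : Module.Finite F (WW f g M) := by
  have := finite_mulBox f (fun j => M - f.degreeOf j)
  have := finite_mulBox g (fun j => M - g.degreeOf j)
  unfold WW
  infer_instance

theorem finrank_WW (f g : MvPolynomial (Fin r) F) (hf : f ≠ 0) (hg : g ≠ 0)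
    (h : IsRelPrime f g) (M : ℕ) :
    Module.finrank F (WW f g M) + ∏ j, (M - f.degreeOf j - g.degreeOf j)
      = ∏ j, (M - f.degreeOf j) + ∏ j, (M - g.degreeOf j) := by
  have := finite_mulBox f (fun j => M - f.degreeOf j)
  have := finite_mulBox g (fun j => M - g.degreeOf j)
  have h1 := Submodule.finrank_sup_add_finrank_inf_eq (mulBox f (fun j => M - f.degreeOf j))
    (mulBox g (fun j => M - g.degreeOf j))
  rw [inf_mulBox f g hf hg h M, finrank_mulBox _ (mul_ne_zero hf hg), finrank_mulBox _ hf,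
    finrank_mulBox _ hg] at h1
  exact h1

theorem mulBox_le (f : MvPolynomial (Fin r) F) (hf : f ≠ 0) (M : ℕ) :
    mulBox f (fun j => M - f.degreeOf j) ≤ restrictSupport F (bs fun _ => M) := by
  intro x hx
  rw [mem_mulBox] at hx
  obtain ⟨p, hp, rfl⟩ := hx
  by_cases hp0 : p = 0
  · rw [hp0, mul_zero]
    exact zero_mem _
  · rw [mem_bs_iff hp0] at hp
    rw [mem_bs_iff (mul_ne_zero hf hp0)]
    intro j
    have := hp j
    rw [degreeOf_mul_eq hf hp0]
    omega

theorem WW_le (f g : MvPolynomial (Fin r) F) (hf : f ≠ 0) (hg : g ≠ 0) (M : ℕ) :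
    WW f g M ≤ restrictSupport F (bs fun _ => M) :=
  sup_le (mulBox_le f hf M) (mulBox_le g hg M)

end dim

section lim
variable {r : ℕ}

theorem hd (s : Finset (Fin r)) (a : Fin r → ℝ) :
    HasDerivAt (fun t : ℝ => ∏ j ∈ s, (1 - t * a j)) (-(∑ j ∈ s, a j)) 0 := by
  classical
  have h := HasDerivAt.fun_finset_prod (u := s) (f := fun j (t : ℝ) => 1 - t * a j)
    (f' := fun j => -(a j)) (x := (0 : ℝ)) (fun j _ => by
      have h1 : HasDerivAt (fun t : ℝ => t * a j) (1 * a j) 0 := (hasDerivAt_id 0).mul_const _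
      have h2 := h1.const_sub 1
      simpa using h2)
  simpa using h

/-- the defect -/
noncomputable def psi (a b : Fin r → ℝ) (t : ℝ) : ℝ :=
  1 - ∏ j, (1 - t * a j) - ∏ j, (1 - t * b j) + ∏ j, (1 - t * (a j + b j))

theorem hd_psi (a b : Fin r → ℝ) : HasDerivAt (psi a b) 0 0 := by
  have h := (((hasDerivAt_const (0 : ℝ) (1 : ℝ)).sub (hd Finset.univ a)).sub
    (hd Finset.univ b)).add (hd Finset.univ fun j => a j + b j)
  have h0 : (0 : ℝ) - -(∑ j, a j) - -(∑ j, b j) + -(∑ j, (a j + b j)) = 0 := by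
    rw [Finset.sum_add_distrib]
    ring
  rw [h0] at h
  exact h

theorem psi_lim (a b : Fin r → ℝ) :
    Tendsto (fun M : ℕ => (M : ℝ) * psi a b ((M : ℝ)⁻¹)) atTop (nhds 0) := by
  have h := hasDerivAt_iff_tendsto_slope_zero.1 (hd_psi a b)
  have h0 : psi a b 0 = 0 := by simp [psi]
  have h1 : Tendsto (fun M : ℕ => ((M : ℝ)⁻¹)) atTop (nhdsWithin 0 {0}ᶜ) := by
    rw [tendsto_nhdsWithin_iff]
    refine ⟨tendsto_inv_atTop_nhds_zero_nat, ?_⟩
    filter_upwards [eventually_gt_atTop 0] with M hM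
    have : (M : ℝ) ≠ 0 := by positivity
    simpa using this
  have h2 := h.comp h1
  refine h2.congr' ?_
  filter_upwards with M
  simp [h0]

theorem prod_nat (M : ℕ) (hM : 0 < M) (a : Fin r → ℕ) (ha : ∀ j, a j ≤ M) :
    ((∏ j, (M - a j) : ℕ) : ℝ) = (M : ℝ) ^ r * ∏ j, (1 - (M : ℝ)⁻¹ * a j) := by
  have h1 : (M : ℝ) ^ r = ∏ _j : Fin r, (M : ℝ) := by simp
  rw [h1, ← Finset.prod_mul_distrib]
  push_cast
  refine Finset.prod_congr rfl fun j _ => ?_
  rw [Nat.cast_sub (ha j)]
  have : (M : ℝ) ≠ 0 := by positivity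
  field_simp

theorem dim_lim {F : Type} [Field F] (f g : MvPolynomial (Fin r) F) (hf : f ≠ 0) (hg : g ≠ 0)
    (h : IsRelPrime f g) : ∃ φ : ℕ → ℝ, Tendsto (fun M : ℕ => (M : ℝ) * φ M) atTop (nhds 0) ∧
      ∀ᶠ M : ℕ in atTop, (Module.finrank F (WW f g M) : ℝ) = (M : ℝ) ^ r * (1 - φ M) := by
  refine ⟨fun M => psi (fun j => (f.degreeOf j : ℝ)) (fun j => (g.degreeOf j : ℝ)) ((M : ℝ)⁻¹),
    psi_lim _ _, ?_⟩
  filter_upwards [eventually_ge_atTop (∑ j, (f.degreeOf j + g.degreeOf j)),
    eventually_gt_atTop 0] with M hM hM0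
  have h0 : ∀ j, f.degreeOf j + g.degreeOf j ≤ M := fun j =>
    (Finset.single_le_sum (f := fun j => f.degreeOf j + g.degreeOf j)
      (fun _ _ => Nat.zero_le _) (Finset.mem_univ j)).trans hM
  have h1 := finrank_WW f g hf hg h M
  have h2 : ((Module.finrank F (WW f g M) : ℕ) : ℝ) + ((∏ j, (M - f.degreeOf j - g.degreeOf j) : ℕ) : ℝ)
      = ((∏ j, (M - f.degreeOf j) : ℕ) : ℝ) + ((∏ j, (M - g.degreeOf j) : ℕ) : ℝ) := by
    exact_mod_cast h1
  have h3 : ∏ j, (M - f.degreeOf j - g.degreeOf j) = ∏ j, (M - (f.degreeOf j + g.degreeOf j)) :=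
    Finset.prod_congr rfl fun j _ => by omega
  rw [h3, prod_nat M hM0 _ h0, prod_nat M hM0 _ fun j => le_trans (by omega) (h0 j),
    prod_nat M hM0 _ fun j => le_trans (by omega) (h0 j)] at h2
  simp only [psi]
  push_cast at h2
  linear_combination h2

end lim

section main
variable {F Ω : Type} [Field F] [Field Ω] [Algebra F Ω] {I : Type} [Fintype I] {r : ℕ}

theorem ult_nu (D : SSF F Ω I r) (i : I) : Ult F (fun x : Ω => D.nu i x) where
  smul c x hc _ := by
    show D.nu i (c • x) = D.nu i x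
    rw [Algebra.smul_def]
    exact nu_term D i c hc x
  add x y _ _ _ := D.ult i x y

/-- the monomials of the box -/
noncomputable def bb (D : SSF F Ω I r) (M : ℕ) (m : Fin r → Fin M) : Ω :=
  mon D.w fun k => ((m k : ℕ) : ℤ)

/-- the exponent of a point of the box -/
noncomputable def ex {M : ℕ} (m : Fin r → Fin M) : Fin r →₀ ℕ :=
  Finsupp.equivFunOnFinite.symm fun k => (m k : ℕ)

theorem bb_eq (D : SSF F Ω I r) (M : ℕ) (m : Fin r → Fin M) :
    bb D M m = D.ev.toLinearMap (MvPolynomial.monomial (ex m) 1) := by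
  show _ = D.ev (MvPolynomial.monomial (ex m) 1)
  rw [ev_monomial, map_one, one_mul]
  rfl

theorem li_bb (D : SSF F Ω I r) (M : ℕ) : LinearIndependent F (bb D M) := by
  have h1 : Function.Injective (ex (r := r) (M := M)) := by
    intro m m' h
    funext k
    apply Fin.ext
    have := DFunLike.congr_fun h k
    simpa [ex] using this
  have h2 := (MvPolynomial.basisMonomials (Fin r) F).linearIndependent.comp _ h1
  have h3 := h2.map' D.ev.toLinearMap (LinearMap.ker_eq_bot.2 (ev_inj D))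
  have h4 : bb D M = D.ev.toLinearMap ∘ ((MvPolynomial.basisMonomials (Fin r) F) ∘ ex) := by
    funext m
    rw [bb_eq]
    simp
  rw [h4]
  exact h3

theorem map_le (D : SSF F Ω I r) (M : ℕ) :
    (restrictSupport F (bs fun _ => M)).map D.ev.toLinearMap
      ≤ Submodule.span F (Set.range (bb D M)) := by
  rw [restrictSupport_eq_span, Submodule.map_span, Submodule.span_le]
  rintro _ ⟨_, ⟨m, hm, rfl⟩, rfl⟩
  have e : ex (fun k => (⟨m k, hm k⟩ : Fin M)) = m := by
    ext k
    rfl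
  refine Submodule.subset_span ⟨fun k => ⟨m k, hm k⟩, ?_⟩
  rw [bb_eq, e]

theorem nu_bb (D : SSF F Ω I r) (c : ℝ) (hc0 : 0 < c) (hc1 : c ≤ 1)
    (hc : ∀ i k, c ≤ D.nu i (D.w k)) (i : I) (M : ℕ) (m : Fin r → Fin M) :
    (c ^ r) ^ M ≤ D.nu i (bb D M m) := by
  unfold bb mon
  rw [map_prod]
  have h1 : (c ^ r) ^ M = ∏ _k : Fin r, c ^ M := by simp [← pow_mul, mul_comm]
  rw [h1]
  refine Finset.prod_le_prod (fun _ _ => by positivity) fun k _ => ?_
  rw [zpow_natCast, map_pow]
  calc c ^ M ≤ c ^ (m k : ℕ) := pow_le_pow_of_le_one hc0.le hc1 (m k).2.le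
    _ ≤ _ := pow_le_pow_left₀ hc0.le (hc i k) _

theorem main_ineq (D : SSF F Ω I r) (f g : MvPolynomial (Fin r) F) (d a b : Ω) (hf : f ≠ 0)
    (hg : g ≠ 0) (ha : a ∈ D.O) (hb : b ∈ D.O) (hfd : D.ev f = d * a) (hgd : D.ev g = d * b)
    (c : ℝ) (hc0 : 0 < c) (hc1 : c ≤ 1) (hc : ∀ i k, c ≤ D.nu i (D.w k)) (M : ℕ) :
    Module.finrank F (WW f g M) ≤ M ^ r ∧
    ∏ i, (((c ^ r) ^ M) ^ (M ^ r - Module.finrank F (WW f g M)) *
      D.nu i d ^ Module.finrank F (WW f g M)) ≤ 1 := by
  classical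
  have hd0 : d ≠ 0 := by
    rintro rfl
    rw [zero_mul] at hfd
    exact ev_ne D f hf hfd
  have hfin := finite_WW f g M
  set V' : Submodule F Ω := (WW f g M).map D.ev.toLinearMap with hV'
  have hinj : Function.Injective D.ev.toLinearMap := ev_inj D
  have hfinV : Module.Finite F V' := by
    rw [hV']
    infer_instance
  have hrk : Module.finrank F V' = Module.finrank F (WW f g M) :=
    ((Submodule.equivMapOfInjective D.ev.toLinearMap hinj (WW f g M)).finrank_eq).symm
  have hle : V' ≤ Submodule.span F (Set.range (bb D M)) :=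
    (Submodule.map_mono (WW_le f g hf hg M)).trans (map_le D M)
  have hgr := fun i => greedy (ult_nu D i) (bb D M) (li_bb D M) V' hle
  choose s w hw1 hw2 hw3 hw4 hw5 using hgr
  -- the number of the elements of the families
  have hcard : ∀ i, ((s i)ᶜ).card = Module.finrank F V' := by
    intro i
    have h1 : LinearIndependent F (fun x : ↥((s i)ᶜ) => w i x) :=
      (hw1 i).comp _ Subtype.val_injective
    have h2 := finrank_span_eq_card h1
    have h3 : Set.range (fun x : ↥((s i)ᶜ) => w i x) = w i '' {a | a ∉ s i} := by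
      ext x
      constructor
      · rintro ⟨⟨y, hy⟩, rfl⟩
        exact ⟨y, by simpa using hy, rfl⟩
      · rintro ⟨y, hy, rfl⟩
        exact ⟨⟨y, by simpa using hy⟩, rfl⟩
    rw [h3, ← hw4 i] at h2
    rw [h2]
    exact (Fintype.card_coe _).symm
  have hscard : ∀ i, (s i).card = M ^ r - Module.finrank F (WW f g M) := by
    intro i
    have h1 := hcard i
    rw [Finset.card_compl, hrk] at h1
    have h2 : (s i).card ≤ Fintype.card (Fin r → Fin M) := Finset.card_le_univ _
    have h3 : Fintype.card (Fin r → Fin M) = M ^ r := by simp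
    omega
  have hNle : Module.finrank F (WW f g M) ≤ M ^ r := by
    have : Module.Finite F (Submodule.span F (Set.range (bb D M))) :=
      Module.Finite.span_of_finite F (Set.finite_range _)
    have h1 := Submodule.finrank_mono hle
    rw [finrank_span_eq_card (li_bb D M), hrk] at h1
    simpa using h1
  refine ⟨hNle, ?_⟩
  -- division by `d`
  set δ : Ω →ₗ[F] Ω := LinearMap.mulRight F d⁻¹ with hδ
  have hδv : ∀ x, δ x = x * d⁻¹ := fun x => rfl
  have hδi : Function.Injective δ := by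
    intro x y h
    rw [hδv, hδv] at h
    exact mul_right_cancel₀ (inv_ne_zero hd0) h
  have hVO : ∀ x ∈ V', δ x ∈ D.O := by
    intro x hx
    rw [hV', Submodule.mem_map] at hx
    obtain ⟨p, hp, rfl⟩ := hx
    unfold WW at hp
    obtain ⟨p1, hp1, p2, hp2, rfl⟩ := Submodule.mem_sup.1 hp
    rw [mem_mulBox] at hp1 hp2
    obtain ⟨q1, _, rfl⟩ := hp1
    obtain ⟨q2, _, rfl⟩ := hp2
    have h1 : δ (D.ev.toLinearMap (f * q1 + g * q2)) = a * D.ev q1 + b * D.ev q2 := by
      show D.ev (f * q1 + g * q2) * d⁻¹ = _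
      rw [map_add, map_mul, map_mul, hfd, hgd]
      field_simp
    rw [h1]
    exact D.O.add_mem (D.O.mul_mem ha (R_le_O D _ (ev_mem D q1)))
      (D.O.mul_mem hb (R_le_O D _ (ev_mem D q2)))
  let B := Module.finBasis F V'
  have hB : Submodule.span F (Set.range fun k => (B k : Ω)) = V' := by
    have h1 := B.span_eq
    have h2 : (Submodule.span F (Set.range B)).map V'.subtype = V' := by
      rw [h1, Submodule.map_top, Submodule.range_subtype]
    rw [Submodule.map_span, ← Set.range_comp] at h2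
    exact h2
  have hss := Pool.Agent.Helper2.JN.SSX F Ω I r D (Fin (Module.finrank F V'))
    (Fin r → Fin M) (fun k => δ (B k)) (fun i => (s i)ᶜ) (fun i m => δ (w i m))
    (fun k => hVO _ (B k).2)
    (((B.linearIndependent.map' V'.subtype (Submodule.ker_subtype _))).map' δ
      (LinearMap.ker_eq_bot.2 hδi))
    (fun i => by rw [hcard i]; simp)
    (by
      intro i m hm
      have h1 : w i m ∈ V' := (hw3 i m (by simpa using hm)).1
      rw [← hB] at h1
      have h2 := Submodule.mem_map_of_mem (f := δ) h1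
      rw [Submodule.map_span, ← Set.range_comp] at h2
      exact h2)
    (by
      intro i k
      have h1 : (B k : Ω) ∈ Submodule.span F (w i '' {a | a ∉ s i}) := hw4 i ▸ (B k).2
      have h2 := Submodule.mem_map_of_mem (f := δ) h1
      rw [Submodule.map_span, ← Set.image_comp] at h2
      have h3 : ((fun m => δ (w i m)) '' (((s i)ᶜ : Finset _) : Set (Fin r → Fin M)))
          = (δ ∘ w i) '' {a | a ∉ s i} := by
        ext x
        simp
      rw [h3]
      exact h2)
  -- comparison of the products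
  have hall : ∏ i, ∏ m, D.nu i (bb D M m) = 1 := by
    rw [Finset.prod_comm]
    exact Finset.prod_eq_one fun m _ => prod_mon D _
  have hkey : ∀ i, (((c ^ r) ^ M) ^ (M ^ r - Module.finrank F (WW f g M)) *
      D.nu i d ^ Module.finrank F (WW f g M)) * ∏ m ∈ (s i)ᶜ, D.nu i (δ (w i m))
        ≤ ∏ m, D.nu i (bb D M m) := by
    intro i
    have hdp : 0 < D.nu i d := (D.nu i).pos hd0
    have e1 : ∏ m ∈ (s i)ᶜ, D.nu i (δ (w i m))
        = (∏ m ∈ (s i)ᶜ, D.nu i (w i m)) * ((D.nu i d)⁻¹) ^ Module.finrank F (WW f g M) := by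
      have h1 : ∀ m, D.nu i (δ (w i m)) = D.nu i (w i m) * (D.nu i d)⁻¹ := by
        intro m
        rw [hδv, map_mul, map_inv₀]
      rw [Finset.prod_congr rfl fun m _ => h1 m, Finset.prod_mul_distrib, Finset.prod_const,
        hcard i, hrk]
    have e2 : (((c ^ r) ^ M) ^ (M ^ r - Module.finrank F (WW f g M)) *
      D.nu i d ^ Module.finrank F (WW f g M)) * ∏ m ∈ (s i)ᶜ, D.nu i (δ (w i m))
        = ((c ^ r) ^ M) ^ (s i).card * ∏ m ∈ (s i)ᶜ, D.nu i (w i m) := by
      rw [e1, hscard i, inv_pow]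
      have : D.nu i d ^ Module.finrank F (WW f g M) ≠ 0 := by positivity
      field_simp
    rw [e2, ← Finset.prod_mul_prod_compl (s i) (fun m => D.nu i (bb D M m))]
    refine mul_le_mul ?_ ?_ (Finset.prod_nonneg fun _ _ => (D.nu i).nonneg _)
      (Finset.prod_nonneg fun _ _ => (D.nu i).nonneg _)
    · rw [← Finset.prod_const]
      exact Finset.prod_le_prod (fun _ _ => by positivity) fun m _ => nu_bb D c hc0 hc1 hc i M m
    · exact Finset.prod_le_prod (fun _ _ => (D.nu i).nonneg _) fun m hm =>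
        (hw3 i m (by simpa using hm)).2
  have hprod : (∏ i, (((c ^ r) ^ M) ^ (M ^ r - Module.finrank F (WW f g M)) *
      D.nu i d ^ Module.finrank F (WW f g M))) * ∏ i, ∏ m ∈ (s i)ᶜ, D.nu i (δ (w i m)) ≤ 1 := by
    rw [← Finset.prod_mul_distrib, ← hall]
    exact Finset.prod_le_prod (fun i _ => mul_nonneg (mul_nonneg (by positivity)
      (pow_nonneg ((D.nu i).nonneg _) _)) (Finset.prod_nonneg fun _ _ => (D.nu i).nonneg _))
      fun i _ => hkey i
  have hpos : 0 ≤ ∏ i, (((c ^ r) ^ M) ^ (M ^ r - Module.finrank F (WW f g M)) *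
      D.nu i d ^ Module.finrank F (WW f g M)) := Finset.prod_nonneg fun i _ =>
    mul_nonneg (by positivity) (pow_nonneg ((D.nu i).nonneg _) _)
  calc _ = (∏ i, (((c ^ r) ^ M) ^ (M ^ r - Module.finrank F (WW f g M)) *
      D.nu i d ^ Module.finrank F (WW f g M))) * 1 := (mul_one _).symm
    _ ≤ _ := mul_le_mul_of_nonneg_left hss hpos
    _ ≤ 1 := hprod

theorem GCDA : ST_GCDA := by
  classical
  intro F Ω _ _ _ I _ r D f g d a b hf hg hfg ha hb hfd hgd
  by_contra hcon
  have hcon' : 1 < ∏ i, D.nu i d := not_le.1 hcon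
  -- a common lower bound for the units
  obtain ⟨c, hc0, hc1, hc⟩ : ∃ c : ℝ, 0 < c ∧ c ≤ 1 ∧ ∀ i k, c ≤ D.nu i (D.w k) := by
    have hpos : ∀ p : I × Fin r, 0 < min 1 (D.nu p.1 (D.w p.2)) := fun p =>
      lt_min one_pos ((D.nu p.1).pos (D.w0 p.2))
    refine ⟨∏ p : I × Fin r, min 1 (D.nu p.1 (D.w p.2)),
      Finset.prod_pos fun p _ => hpos p,
      Finset.prod_le_one (fun p _ => (hpos p).le) fun p _ => min_le_left _ _, fun i k => ?_⟩
    rw [← Finset.mul_prod_erase Finset.univ _ (Finset.mem_univ (i, k))]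
    calc min 1 (D.nu i (D.w k)) * ∏ p ∈ Finset.univ.erase (i, k), min 1 (D.nu p.1 (D.w p.2))
        ≤ min 1 (D.nu i (D.w k)) * 1 := mul_le_mul_of_nonneg_left
          (Finset.prod_le_one (fun p _ => (hpos p).le) fun p _ => min_le_left _ _)
          (hpos (i, k)).le
      _ ≤ _ := by
        rw [mul_one]
        exact min_le_right _ _
  obtain ⟨φ, hφ, hdim⟩ := dim_lim f g hf hg hfg
  have hφ0 : Tendsto φ atTop (nhds 0) := by
    have h1 := (tendsto_inv_atTop_nhds_zero_nat (𝕜 := ℝ)).mul hφ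
    rw [zero_mul] at h1
    refine h1.congr' ?_
    filter_upwards [eventually_gt_atTop 0] with M hM
    have : (M : ℝ) ≠ 0 := by positivity
    field_simp
  set L : ℝ := Real.log (∏ i, D.nu i d) with hL
  have hLpos : 0 < L := Real.log_pos hcon'
  set κ : ℝ := (Fintype.card I : ℝ) * (r * (-Real.log c)) with hκ
  -- the inequality `(1 - φ M) * L ≤ κ * (M * φ M)`
  have hev : ∀ᶠ M : ℕ in atTop, (1 - φ M) * L ≤ κ * ((M : ℝ) * φ M) := by
    filter_upwards [hdim, eventually_gt_atTop 0] with M hM hM0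
    obtain ⟨hN, h1⟩ := main_ineq D f g d a b hf hg ha hb hfd hgd c hc0 hc1 hc M
    set N := Module.finrank F (WW f g M) with hNdef
    rw [Finset.prod_mul_distrib, Finset.prod_const, Finset.prod_pow, Finset.card_univ] at h1
    have hpc : 0 < (((c ^ r) ^ M) ^ (M ^ r - N)) ^ Fintype.card I := by positivity
    have hpd : 0 < (∏ i, D.nu i d) ^ N := pow_pos (by linarith) _
    have h2 := Real.log_le_log (mul_pos hpc hpd) h1
    rw [Real.log_one, Real.log_mul hpc.ne' hpd.ne', Real.log_pow, Real.log_pow, Real.log_pow,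
      Real.log_pow, Real.log_pow, ← hL] at h2
    have h3 : ((M ^ r - N : ℕ) : ℝ) = (M : ℝ) ^ r * φ M := by
      rw [Nat.cast_sub hN, hM]
      push_cast
      ring
    rw [h3, hM] at h2
    have hMr : 0 < (M : ℝ) ^ r := by positivity
    have h4 : (M : ℝ) ^ r * ((1 - φ M) * L) ≤ (M : ℝ) ^ r * (κ * ((M : ℝ) * φ M)) := by
      rw [hκ]
      linarith
    exact le_of_mul_le_mul_left h4 hMr
  have hl1 : Tendsto (fun M => (1 - φ M) * L) atTop (nhds ((1 - 0) * L)) :=
    (tendsto_const_nhds.sub hφ0).mul_const L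
  have hl2 : Tendsto (fun M : ℕ => κ * ((M : ℝ) * φ M)) atTop (nhds (κ * 0)) :=
    hφ.const_mul κ
  have h5 := le_of_tendsto_of_tendsto hl1 hl2 hev
  rw [sub_zero, one_mul, mul_zero] at h5
  linarith

end main

end Pool.Agent.Helper20.LS5
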