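import Pool.Agent.Helper20.LS5.GcdElt
import Pool.Agent.Helper47.JN.RK

/-!
Project LS5 (MP_9a3c31_nt), row GCDC: the gcd theorem for sequences of values of relatively prime
polynomials in moderate S-units with slow coefficients.
-/

set_option autoImplicit false

namespace Pool.Agent.Helper20.LS5

open NumberField IsDedekindDomain Filter Finset Pool.Agent.Helper9.LS5 Pool.Agent.Helper42.LK
  Pool.Agent.Helper70.SUB Pool.Agent.Helper77.SUBK Pool.Agent.Helper9.MTK Pool.Agent.Helper71.JN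
  Pool.Agent.Helper70.SUBW Pool.Agent.Helper47.JN

section
variable {M : Type} [Field M] [NumberField M] [IsGalois ℚ M] {S : Finset ℕ}

omit [IsGalois ℚ M] in
theorem prod_bd (P : PF S M) {H : ℝ} {z : M} (h : HB P H z) :
    ∏ v ∈ plc S, ∏ σ : M ≃ₐ[ℚ] M, P.nv v (σ z)
      ≤ H ^ ((plc S).card * Fintype.card (M ≃ₐ[ℚ] M)) := by
  calc ∏ v ∈ plc S, ∏ σ : M ≃ₐ[ℚ] M, P.nv v (σ z)
      ≤ ∏ _v ∈ plc S, ∏ _σ : M ≃ₐ[ℚ] M, H :=
        Finset.prod_le_prod (fun v _ => Finset.prod_nonneg fun σ _ => P.nn _ _) fun v hv =>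
          Finset.prod_le_prod (fun σ _ => P.nn _ _) fun σ _ => h v hv σ
    _ = _ := by
        rw [Finset.prod_const, Finset.prod_const, Finset.card_univ, ← pow_mul, mul_comm]

omit [IsGalois ℚ M] in
theorem nat_nv (P : PF S M) (hS : ∀ p ∈ S, p.Prime) (n : ℕ) (hn : n ≠ 0) {v : Option ℕ}
    (hv : v ∈ plc S) : P.nv v (n : M) ≤ n := by
  cases v with
  | none =>
    rw [P.natCast mem_none]
    simp [av]
  | some p =>
    have h1 := P.int_le Pool.Agent.Helper15.SUB.AV hS (of_mem_some hv) (n : ℤ)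
    rw [Int.cast_natCast] at h1
    have h2 : (1 : ℝ) ≤ n := by exact_mod_cast Nat.one_le_iff_ne_zero.2 hn
    exact h1.trans h2

variable {P : PF S M} {φ : Ultrafilter ℕ} {X : ℕ → ℝ}

/-- polynomial size bounds the contributions outside `S` -/
theorem os_sum (hHFP : ST_HFP) (hS : ∀ p ∈ S, p.Prime) (hX : Tendsto X (φ : Filter ℕ) atTop)
    {F : ℕ → M} (hF : OS P φ X F) (hF0 : ∀ᶠ j in (φ : Filter ℕ), F j ≠ 0) :
    ∃ A : ℝ, 0 < A ∧ ∀ᶠ j in (φ : Filter ℕ), ∀ T : Finset (FinitePlace M),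
      (∀ V ∈ T, Aw S V) → ∑ V ∈ T, max 0 (-Real.log (V (F j))) ≤ A * Real.log (X j) := by
  obtain ⟨h1, A, hA, h2⟩ := hF
  refine ⟨2 * (Module.finrank ℚ M * (((plc S).card * Fintype.card (M ≃ₐ[ℚ] M) : ℕ) *
    (A + 1))) + 1, by positivity, ?_⟩
  filter_upwards [h1 1 one_pos, h2, hF0, hX.eventually_ge_atTop 1] with j hj1 hj2 hj0 hx T hT
  obtain ⟨D, hD0, hD, hSI⟩ := hj1
  rw [Real.rpow_one] at hD
  have hXp : 0 < X j := by linarith
  have hD0' : (D : M) ≠ 0 := by exact_mod_cast hD0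
  obtain ⟨y, hy⟩ : ∃ y : M, y = (D : M) * F j := ⟨_, rfl⟩
  rw [← hy] at hSI
  have hy0 : y ≠ 0 := by rw [hy]; exact mul_ne_zero hD0' hj0
  have h3 := nv_sum hHFP P hS hy0 hSI T hT
  have hHB : HB P (X j ^ (A + 1)) y := by
    intro v hv σ
    rw [hy, map_mul, map_natCast, P.mul v hv, add_comm A 1, Real.rpow_add hXp, Real.rpow_one]
    exact mul_le_mul ((nat_nv P hS D hD0 hv).trans hD) (hj2 v hv σ) (P.nn _ _) hXp.le
  have h4 := prod_bd P hHB
  have hpos : 0 < ∏ v ∈ plc S, ∏ σ : M ≃ₐ[ℚ] M, P.nv v (σ y) :=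
    Pool.Agent.Helper89.SUBK.prod_pos P hy0
  have h5 := Real.log_le_log hpos h4
  rw [Real.log_pow, Real.log_rpow hXp] at h5
  have h6 : ∑ V ∈ T, max 0 (-Real.log (V (F j))) ≤ ∑ V ∈ T, -Real.log (V y) := by
    refine Finset.sum_le_sum fun V hV => max_le ?_ ?_
    · exact neg_nonneg.2 (Real.log_nonpos (apply_nonneg _ _) (si_le hSI (hT V hV)))
    · refine neg_le_neg (Real.log_le_log (fp_pos V hy0) ?_)
      rw [hy, map_mul]
      have := fp_nat_le V D
      have := apply_nonneg V (F j)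
      nlinarith
  have hL : 0 ≤ Real.log (X j) := Real.log_nonneg hx
  have h7 : (Module.finrank ℚ M : ℝ) * Real.log (∏ v ∈ plc S, ∏ σ : M ≃ₐ[ℚ] M, P.nv v (σ y))
      ≤ Module.finrank ℚ M * (((plc S).card * Fintype.card (M ≃ₐ[ℚ] M) : ℕ) *
        ((A + 1) * Real.log (X j))) := mul_le_mul_of_nonneg_left h5 (Nat.cast_nonneg _)
  nlinarith

end

/-- the gcd theorem for sequences -/
theorem GCDC (hKMK : Pool.Agent.Helper42.LK.ST_KMK) (hGCDA : Pool.Agent.Helper9.LS5.ST_GCDA)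
    (hOSR : ST_OSR) (hOMG : ST_OMG) (hHFP : ST_HFP) : ST_GCDC := by
  classical
  intro M _ _ _ S P φ X r w D f g F G hS hX hw hD hf hg hfg hF hG ε hε
  obtain ⟨o1, o2, o3, o4, o5, o6, o7, o8, o9⟩ := hOSR M S P φ X hS hX
  obtain ⟨m1, m2, m3, m4, m5, m6, m7, m8⟩ := hOMG M S P φ X hS hX
  have hAV := Pool.Agent.Helper15.SUB.AV
  by_contra hcon
  rw [← Ultrafilter.eventually_not] at hcon
  have hT0 : ∀ᶠ j in (φ : Filter ℕ), ∃ T : Finset (FinitePlace M), (∀ V ∈ T, Aw S V) ∧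
      ε * Real.log (X j) < ∑ V ∈ T, ct V (F j) (G j) := by
    filter_upwards [hcon] with j hj
    push Not at hj
    exact hj
  obtain ⟨T, hT⟩ := hT0.choice
  have hX1 : ∀ᶠ j in (φ : Filter ℕ), 3 ≤ X j := hX.eventually_ge_atTop 3
  -- the sequences `F` and `G`
  have hos : ∀ (p : MvPolynomial (Fin r) (Sl P φ X)) (Z : ℕ → M),
      gm φ Z = ((D.ev p : Om P φ X) : UP M φ) → OS P φ X Z := by
    intro p Z hZ
    have h1 : (D.ev p : Om P φ X) ∈ D.O := R_le_O D _ (ev_mem D p)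
    rw [hD.hO, m1] at h1
    obtain ⟨z, hz, hz2⟩ := h1
    exact o7 z Z (Germ.coe_eq.1 (hz2.trans hZ.symm)) hz
  have hne : ∀ (p : MvPolynomial (Fin r) (Sl P φ X)) (Z : ℕ → M), p ≠ 0 →
      gm φ Z = ((D.ev p : Om P φ X) : UP M φ) → ∀ᶠ j in (φ : Filter ℕ), Z j ≠ 0 := by
    intro p Z hp hZ
    rw [Ultrafilter.eventually_not]
    intro h0
    have h1 : gm φ Z = 0 := Germ.coe_eq.2 h0
    rw [h1] at hZ
    refine ev_ne D p hp (Subtype.ext ?_)
    rw [← hZ]
    rfl
  have hosF := hos f F hF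
  have hosG := hos g G hG
  have hF0 := hne f F hf hF
  have hG0 := hne g G hg hG
  obtain ⟨A₁, hA₁, hs1⟩ := os_sum hHFP hS hX hosF hF0
  -- the small element
  obtain ⟨C, N, hC, hN⟩ := gcd_elt hKMK M
  have hd0 : ∀ᶠ j in (φ : Filter ℕ), ∃ d : M, d ≠ 0 ∧ IsIntegral ℤ d ∧
      (∀ V ∈ T j, ct V (F j) (G j) ≤ -Real.log (V d)) ∧
      (∀ w : InfinitePlace M, Module.finrank ℚ M * Real.log (w d)
        ≤ C + ∑ V ∈ T j, ct V (F j) (G j)) ∧
      ∀ (V : FinitePlace M) (x : M), V x ≤ 1 → (V ∈ T j → V x ≤ max (V (F j)) (V (G j))) →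
        V (((N.factorial ^ N : ℕ) : M) * x / d) ≤ 1 := by
    filter_upwards [hF0, hG0] with j h1 h2
    exact hN (F j) (G j) h1 h2 (T j)
  obtain ⟨d, hd⟩ := hd0.choice
  obtain ⟨B, hB⟩ : ∃ B : ℕ, B = N.factorial ^ N := ⟨_, rfl⟩
  rw [← hB] at hd
  have hB0 : B ≠ 0 := by
    rw [hB]
    exact pow_ne_zero _ (Nat.factorial_ne_zero N)
  have hB0M : (B : M) ≠ 0 := by exact_mod_cast hB0
  have hdne : ∀ᶠ j in (φ : Filter ℕ), d j ≠ 0 := hd.mono fun j hj => hj.1
  have hn1 : (1 : ℝ) ≤ Module.finrank ℚ M := by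
    have : 0 < Module.finrank ℚ M := Module.finrank_pos
    exact_mod_cast this
  have hosd : OS P φ X d := by
    refine ⟨fun ε' hε' => ?_, C + A₁, by positivity, ?_⟩
    · filter_upwards [hd, hX1] with j hj hx
      refine ⟨1, one_ne_zero, ?_, 1, ⟨one_ne_zero, fun q hq h =>
        absurd (Nat.dvd_one.1 h) hq.one_lt.ne'⟩, by simpa using hj.2.1⟩
      push_cast
      exact Real.one_le_rpow (by linarith) hε'.le
    · filter_upwards [hd, hX1, hT, hs1] with j hj hx hTj hsj v hv σ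
      have hXp : 0 < X j := by linarith
      cases v with
      | none =>
        have hdσ : (σ (d j)) ≠ 0 := fun h => hj.1 ((map_eq_zero_iff σ σ.injective).1 h)
        have hL : 1 ≤ Real.log (X j) := by
          rw [Real.le_log_iff_exp_le hXp]
          have := Real.exp_one_lt_d9
          linarith
        have h1 := hj.2.2.2.1 (InfinitePlace.mk (P.emb.comp (σ : M →+* M)))
        have h2 : (InfinitePlace.mk (P.emb.comp (σ : M →+* M))) (d j) = P.nv none (σ (d j)) := by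
          rw [InfinitePlace.apply, P.inf]
          rfl
        rw [h2] at h1
        have h3 : ∑ V ∈ T j, ct V (F j) (G j) ≤ A₁ * Real.log (X j) := by
          refine (Finset.sum_le_sum fun V _ => ?_).trans (hsj (T j) hTj.1)
          exact max_le_max le_rfl (min_le_left _ _)
        have hpos : 0 < P.nv none (σ (d j)) := P.pos none hv _ hdσ
        have h4 : Real.log (P.nv none (σ (d j))) ≤ (C + A₁) * Real.log (X j) := by
          have h5 : (Module.finrank ℚ M : ℝ) * Real.log (P.nv none (σ (d j)))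
              ≤ (C + A₁) * Real.log (X j) := by nlinarith
          by_cases h6 : Real.log (P.nv none (σ (d j))) ≤ 0
          · exact h6.trans (by positivity)
          · push Not at h6
            nlinarith
        rw [Real.log_le_iff_le_exp hpos] at h4
        rw [Real.rpow_def_of_pos hXp, mul_comm (Real.log (X j))]
        exact h4
      | some p =>
        have h1 : P.nv (some p) (σ (d j)) ≤ 1 :=
          P.integral_le hAV hS (of_mem_some hv) (hj.2.1.map (σ : M →+* M).toIntAlgHom)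
        exact h1.trans (Real.one_le_rpow (by linarith) (by positivity))
  obtain ⟨A₂, hA₂, hlow⟩ := o9 d hosd hdne
  -- the quotients
  have hosE : ∀ Z : ℕ → M, OS P φ X Z →
      (∀ᶠ j in (φ : Filter ℕ), ∀ V : FinitePlace M, V ∈ T j →
        V (Z j) ≤ max (V (F j)) (V (G j))) →
      OS P φ X (fun j => (B : M) * Z j / d j) := by
    intro Z hZ hZm
    obtain ⟨z1, A, hA, z2⟩ := hZ
    refine ⟨fun ε' hε' => ?_, 1 + A + A₂, by positivity, ?_⟩
    · filter_upwards [z1 ε' hε', hd, hZm] with j hj hdj hm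
      obtain ⟨D₁, d1, d2, d3⟩ := hj
      refine ⟨D₁, d1, d2, si_of hS fun V hV => ?_⟩
      have e1 : (D₁ : M) * ((B : M) * Z j / d j) = (B : M) * ((D₁ : M) * Z j) / d j := by ring
      rw [e1]
      refine hdj.2.2.2.2 V _ (si_le d3 hV) fun hVT => ?_
      rw [map_mul]
      have h1 := hm V hVT
      have h2 := fp_nat_le V D₁
      have h3 := apply_nonneg V (Z j)
      nlinarith
    · filter_upwards [z2, hX1, hlow, hX.eventually_ge_atTop (B : ℝ)] with j hj hx hl hXB v hv σ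
      have hXp : 0 < X j := by linarith
      rw [map_div₀, map_mul, map_natCast, P.div hv, P.mul v hv, Real.rpow_add hXp,
        Real.rpow_add hXp, Real.rpow_one, div_eq_mul_inv]
      have h1 : P.nv v (B : M) ≤ X j := (nat_nv P hS B hB0 hv).trans hXB
      have h2 := hj v hv σ
      have h3 : (P.nv v (σ (d j)))⁻¹ ≤ X j ^ A₂ := by
        have h4 := hl v hv σ
        rw [Real.rpow_neg hXp.le] at h4
        have h5 := inv_anti₀ (by positivity) h4
        rwa [inv_inv] at h5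
      exact mul_le_mul (mul_le_mul h1 h2 (P.nn _ _) hXp.le) h3 (inv_nonneg.2 (P.nn _ _))
        (by positivity)
  have hosEF := hosE F hosF (Eventually.of_forall fun j V _ => le_max_left _ _)
  have hosEG := hosE G hosG (Eventually.of_forall fun j V _ => le_max_right _ _)
  -- the abstract theorem
  obtain ⟨dd, hdd⟩ : ∃ dd : Om P φ X, (dd : UP M φ) = gm φ d := ⟨⟨gm φ d, m4 d hosd⟩, rfl⟩
  have hBOm : ((B : Om P φ X)) ≠ 0 := by
    have := m6
    exact_mod_cast hB0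
  have hBup : (((B : Om P φ X)) : UP M φ) = gm φ (fun _ => (B : M)) := by
    push_cast
    rfl
  have hquot : ∀ (Z : ℕ → M) (p : MvPolynomial (Fin r) (Sl P φ X)) (hZE : OS P φ X (fun j => (B : M) * Z j / d j)),
      gm φ Z = ((D.ev p : Om P φ X) : UP M φ) →
      D.ev p = dd / (B : Om P φ X) * ⟨gm φ (fun j => (B : M) * Z j / d j), m4 _ hZE⟩ := by
    intro Z p hZE hZ
    apply Subtype.ext
    rw [← hZ, Subfield.coe_mul, Subfield.coe_div, hdd, hBup]
    refine Germ.coe_eq.2 ?_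
    filter_upwards [hdne] with j hj
    show Z j = d j / (B : M) * ((B : M) * Z j / d j)
    field_simp
  have hOm : ∀ (Z : ℕ → M) (hZE : OS P φ X Z),
      (⟨gm φ Z, m4 _ hZE⟩ : Om P φ X) ∈ D.O := by
    intro Z hZE
    rw [hD.hO, m1]
    exact ⟨Z, hZE, rfl⟩
  have hab := hGCDA (Sl P φ X) (Om P φ X) (Pl S M) r D f g (dd / (B : Om P φ X)) _ _ hf hg hfg
    (hOm _ hosEF) (hOm _ hosEG) (hquot F f hosEF hF) (hquot G g hosEG hG)
  have hnuB : ∀ i, D.nu i (B : Om P φ X) = 1 := by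
    intro i
    have h1 : algebraMap (Sl P φ X) (Om P φ X) (B : Sl P φ X) = (B : Om P φ X) := map_natCast _ _
    rw [← h1]
    refine D.F1 i _ fun h => hBOm ?_
    rw [← h1, h, map_zero]
  have hprod : ∏ i, D.nu i dd ≤ 1 := by
    refine le_trans (le_of_eq ?_) hab
    refine Finset.prod_congr rfl fun i _ => ?_
    rw [map_div₀, hnuB, div_one]
  have hdd0 : dd ≠ 0 := by
    intro h
    have h1 : gm φ d = 0 := by
      rw [← hdd, h]
      rfl
    have h2 : ∀ᶠ j in (φ : Filter ℕ), d j = 0 := Germ.coe_eq.1 h1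
    exact (Ultrafilter.eventually_not.1 hdne) h2
  have hnupos : ∀ i, 0 < D.nu i dd := fun i => (D.nu i).pos hdd0
  have hsum : ∑ i, Real.log (D.nu i dd) ≤ 0 := by
    rw [← Real.log_prod (fun i _ => (hnupos i).ne')]
    exact Real.log_nonpos (Finset.prod_nonneg fun i _ => (hnupos i).le) hprod
  -- the contradiction
  set n : ℝ := (Module.finrank ℚ M : ℝ) with hn
  set δ : ℝ := ε / (2 * n) with hδ
  have hn0 : 0 < n := by linarith
  have hδ0 : 0 < δ := by positivity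
  set m : ℝ := (Fintype.card (Pl S M) : ℝ) with hm
  have hm0 : 0 ≤ m := by positivity
  have hle : ∀ᶠ j in (φ : Filter ℕ), ∀ i : Pl S M,
      P.nv i.1 (i.2 (d j)) ≤ X j ^ (Real.log (D.nu i dd) + δ / (2 * (m + 1))) := by
    rw [Filter.eventually_all]
    intro i
    have h1 := ((hD.hN.2 i dd d hdd.symm (Real.log (D.nu i dd))).1).1
      (by rw [Real.exp_log (hnupos i)])
    exact h1 _ (by positivity)
  obtain ⟨j, hj, hjle, hjT, hx⟩ := (hd.and (hle.and (hT.and hX1))).exists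
  have hXp : 0 < X j := by linarith
  have hL : 0 < Real.log (X j) := Real.log_pos (by linarith)
  have hSId : SI S (d j) := ⟨1, ⟨one_ne_zero, fun q hq h =>
    absurd (Nat.dvd_one.1 h) hq.one_lt.ne'⟩, by simpa using hj.2.1⟩
  have h1 := nv_sum hHFP P hS hj.1 hSId (T j) hjT.1
  have h2 : ∑ V ∈ T j, ct V (F j) (G j) ≤ ∑ V ∈ T j, -Real.log (V (d j)) :=
    Finset.sum_le_sum hj.2.2.1
  have h3 : ∏ v ∈ plc S, ∏ σ : M ≃ₐ[ℚ] M, P.nv v (σ (d j))
      = ∏ i : Pl S M, P.nv i.1 (i.2 (d j)) := by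
    rw [Fintype.prod_prod_type]
    exact (Finset.prod_coe_sort (plc S) fun v => ∏ σ : M ≃ₐ[ℚ] M, P.nv v (σ (d j))).symm
  have h4 : ∏ v ∈ plc S, ∏ σ : M ≃ₐ[ℚ] M, P.nv v (σ (d j)) ≤ X j ^ (δ / 2) := by
    rw [h3]
    calc ∏ i : Pl S M, P.nv i.1 (i.2 (d j))
        ≤ ∏ i : Pl S M, X j ^ (Real.log (D.nu i dd) + δ / (2 * (m + 1))) :=
          Finset.prod_le_prod (fun i _ => P.nn _ _) fun i _ => hjle i
      _ = X j ^ (∑ i : Pl S M, (Real.log (D.nu i dd) + δ / (2 * (m + 1)))) :=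
          (Real.rpow_sum_of_pos hXp _ _).symm
      _ ≤ X j ^ (δ / 2) := by
          refine Real.rpow_le_rpow_of_exponent_le (by linarith) ?_
          rw [Finset.sum_add_distrib, Finset.sum_const, Finset.card_univ, nsmul_eq_mul, ← hm]
          have h5 : m * (δ / (2 * (m + 1))) ≤ δ / 2 := by
            rw [← mul_div_assoc, div_le_div_iff₀ (by positivity) (by positivity)]
            nlinarith
          linarith
  have hpos : 0 < ∏ v ∈ plc S, ∏ σ : M ≃ₐ[ℚ] M, P.nv v (σ (d j)) :=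
    Pool.Agent.Helper89.SUBK.prod_pos P hj.1
  have h5 := Real.log_le_log hpos h4
  rw [Real.log_rpow hXp] at h5
  have h6 : n * Real.log (∏ v ∈ plc S, ∏ σ : M ≃ₐ[ℚ] M, P.nv v (σ (d j)))
      ≤ n * (δ / 2 * Real.log (X j)) := mul_le_mul_of_nonneg_left h5 hn0.le
  have h7 : 2 * (n * (δ / 2 * Real.log (X j))) = ε / 2 * Real.log (X j) := by
    rw [hδ]
    field_simp
  have h8 := hjT.2
  nlinarith

end Pool.Agent.Helper20.LS5
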