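import Pool.Agent.Helper20.LS5.Places

/-!
Project LS5 (MP_9a3c31_nt): a small element of the ideal generated by two elements (Minkowski).
-/

set_option autoImplicit false

namespace Pool.Agent.Helper20.LS5

open NumberField IsDedekindDomain Filter Finset Pool.Agent.Helper9.LS5 Pool.Agent.Helper42.LK
  Pool.Agent.Helper70.SUB Pool.Agent.Helper77.SUBK Pool.Agent.Helper9.MTK

section fixed

variable {M : Type} [Field M] [NumberField M]

/-- a fixed natural number which is divisible by a lot at every place with small quotients -/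
theorem fixB (N : ℕ) (V : FinitePlace M) (a u : M) (ha : a ≠ 0) (hu : u ≠ 0)
    (h : V a ≤ N * V u) : V (((N.factorial ^ N : ℕ)) : M) * V a ≤ V u := by
  obtain ⟨W, hW, hWq⟩ := st_KFP M V
  have hau : 0 < V u := fp_pos V hu
  have hBle : V (((N.factorial ^ N : ℕ)) : M) ≤ 1 := fp_nat_le V _
  have ea : V a = W.q ^ (-W.ord a) := by rw [← hW, W.nr_of_ne ha]
  have eu : V u = W.q ^ (-W.ord u) := by rw [← hW, W.nr_of_ne hu]
  by_cases hk : W.ord u ≤ W.ord a
  · have h1 : V a ≤ V u := by
      rw [ea, eu]
      exact zpow_le_zpow_right₀ W.one_lt_q.le (by omega)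
    have h2 := apply_nonneg V a
    nlinarith
  · push Not at hk
    obtain ⟨k, hk'⟩ : ∃ k : ℕ, W.ord u - W.ord a = k := ⟨(W.ord u - W.ord a).toNat, by omega⟩
    have hk1 : 1 ≤ k := by omega
    have eau : V a = W.q ^ k * V u := by
      rw [ea, eu, ← zpow_natCast, ← zpow_add₀ W.q_pos.ne']
      congr 1
      omega
    have hqk : W.q ^ k ≤ N := by
      rw [eau] at h
      exact le_of_mul_le_mul_right h hau
    have hqN : W.q ≤ N := (le_self_pow₀ W.one_lt_q.le (by omega)).trans hqk
    -- `q` as a natural number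
    obtain ⟨q, hq⟩ : ∃ q : ℕ, q = Ideal.absNorm V.maximalIdeal.asIdeal := ⟨_, rfl⟩
    rw [← hq] at hWq
    rw [hWq] at hqN hqk eau
    have hqN' : q ≤ N := by exact_mod_cast hqN
    have hq2 : 2 ≤ q := by
      have := HeightOneSpectrum.one_lt_absNorm V.maximalIdeal
      rw [← hq] at this
      exact this
    have hVq : V (q : M) < 1 := by
      have h1 : ((q : ℕ) : 𝓞 M) ∈ V.maximalIdeal.asIdeal := by
        rw [hq]
        exact Ideal.absNorm_mem _
      have h2 := (FinitePlace.norm_lt_one_iff_mem M V.maximalIdeal ((q : ℕ) : 𝓞 M)).2 h1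
      rw [FinitePlace.norm_embedding_eq] at h2
      simpa using h2
    have hq0 : (q : M) ≠ 0 := by
      have : q ≠ 0 := by omega
      exact_mod_cast this
    have hq0r : (0 : ℝ) < q := by
      have : 0 < q := by omega
      exact_mod_cast this
    have hq1r : (1 : ℝ) < q := by
      have : 1 < q := by omega
      exact_mod_cast this
    have hVq2 : V (q : M) * q ≤ 1 := by
      have e1 : V (q : M) = (q : ℝ) ^ (-W.ord (q : M)) := by rw [← hW, W.nr_of_ne hq0, hWq]
      have e2 : 1 ≤ W.ord (q : M) := by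
        by_contra hc
        push Not at hc
        rw [e1] at hVq
        have : (1 : ℝ) ≤ (q : ℝ) ^ (-W.ord (q : M)) := one_le_zpow₀ hq1r.le (by omega)
        linarith
      have e3 : (q : ℝ) ^ (-W.ord (q : M)) ≤ (q : ℝ) ^ (-1 : ℤ) :=
        zpow_le_zpow_right₀ hq1r.le (by omega)
      rw [e1]
      calc (q : ℝ) ^ (-W.ord (q : M)) * q ≤ (q : ℝ) ^ (-1 : ℤ) * q :=
            mul_le_mul_of_nonneg_right e3 hq0r.le
        _ = 1 := by
            rw [zpow_neg_one]
            exact inv_mul_cancel₀ hq0r.ne'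
    have hVN : V ((N.factorial : ℕ) : M) ≤ V (q : M) := by
      obtain ⟨c, hc⟩ := Nat.dvd_factorial (by omega : 0 < q) hqN'
      rw [hc]
      push_cast
      rw [map_mul]
      have h1 := fp_nat_le V c
      have h2 := apply_nonneg V (q : M)
      nlinarith
    have hkN : k ≤ N := by
      have h1 : 2 ^ k ≤ q ^ k := Nat.pow_le_pow_left hq2 k
      have h2 : k < 2 ^ k := Nat.lt_two_pow_self
      have h3 : q ^ k ≤ N := by exact_mod_cast hqk
      omega
    have hfin : V (((N.factorial ^ N : ℕ)) : M) * (q : ℝ) ^ k ≤ 1 := by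
      have e1 : V (((N.factorial ^ N : ℕ)) : M) = V ((N.factorial : ℕ) : M) ^ N := by
        rw [Nat.cast_pow, map_pow]
      rw [e1]
      have e2 : V ((N.factorial : ℕ) : M) ^ N ≤ V ((N.factorial : ℕ) : M) ^ k :=
        pow_le_pow_of_le_one (apply_nonneg V _) (fp_nat_le V _) hkN
      calc V ((N.factorial : ℕ) : M) ^ N * (q : ℝ) ^ k
          ≤ V ((N.factorial : ℕ) : M) ^ k * (q : ℝ) ^ k :=
            mul_le_mul_of_nonneg_right e2 (by positivity)
        _ = (V ((N.factorial : ℕ) : M) * q) ^ k := (mul_pow _ _ _).symm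
        _ ≤ 1 := pow_le_one₀ (by positivity) ((mul_le_mul_of_nonneg_right hVN hq0r.le).trans hVq2)
    rw [eau]
    calc V (((N.factorial ^ N : ℕ)) : M) * ((q : ℝ) ^ k * V u)
        = (V (((N.factorial ^ N : ℕ)) : M) * (q : ℝ) ^ k) * V u := by ring
      _ ≤ 1 * V u := mul_le_mul_of_nonneg_right hfin hau.le
      _ = V u := one_mul _

end fixed

/-- common contribution of two elements at a place -/
noncomputable def ct {M : Type} [Field M] [NumberField M] (V : FinitePlace M) (F G : M) : ℝ :=
  max 0 (min (-Real.log (V F)) (-Real.log (V G)))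

theorem ct_nonneg {M : Type} [Field M] [NumberField M] (V : FinitePlace M) (F G : M) :
    0 ≤ ct V F G := le_max_left _ _

/-- a small element of the ideal generated by `F` and `G` at the places of `T` -/
theorem gcd_elt (hKMK : ST_KMK) (M : Type) [Field M] [NumberField M] :
    ∃ (C : ℝ) (N : ℕ), 0 ≤ C ∧ ∀ F G : M, F ≠ 0 → G ≠ 0 → ∀ T : Finset (FinitePlace M),
    ∃ d : M, d ≠ 0 ∧ IsIntegral ℤ d ∧ (∀ V ∈ T, ct V F G ≤ -Real.log (V d)) ∧
      (∀ w : InfinitePlace M, Module.finrank ℚ M * Real.log (w d) ≤ C + ∑ V ∈ T, ct V F G) ∧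
      ∀ (V : FinitePlace M) (x : M), V x ≤ 1 → (V ∈ T → V x ≤ max (V F) (V G)) →
        V (((N.factorial ^ N : ℕ) : M) * x / d) ≤ 1 := by
  classical
  obtain ⟨C₀, hC₀⟩ := hKMK M
  refine ⟨max C₀ 0, ⌈Real.exp C₀⌉₊, le_max_right _ _, fun F G hF hG T => ?_⟩
  set N := ⌈Real.exp C₀⌉₊ with hN
  obtain ⟨a, ha⟩ : ∃ a : FinitePlace M → M, ∀ V, a V =
      if V ∈ T ∧ V F < 1 ∧ V G < 1 then (if V G ≤ V F then F else G) else 1 := ⟨_, fun V => rfl⟩
  have ha0 : ∀ V, a V ≠ 0 := by
    intro V
    rw [ha]
    split_ifs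
    · exact hF
    · exact hG
    · exact one_ne_zero
  have hav : ∀ V : FinitePlace M, V (a V) = if V ∈ T ∧ V F < 1 ∧ V G < 1 then max (V F) (V G) else 1 := by
    intro V
    rw [ha]
    split_ifs with h1 h2
    · exact (max_eq_left h2).symm
    · exact (max_eq_right (le_of_lt (not_le.1 h2))).symm
    · exact map_one V
  have ha1 : ∀ V : FinitePlace M, V (a V) ≤ 1 := by
    intro V
    rw [hav]
    split_ifs with h1
    · exact max_le h1.2.1.le h1.2.2.le
    · exact le_refl 1
  have hlog : ∀ V : FinitePlace M, Real.log (V (a V)) = if V ∈ T then -ct V F G else 0 := by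
    intro V
    have hVF := fp_pos V hF
    have hVG := fp_pos V hG
    rw [hav]
    by_cases hT : V ∈ T
    · rw [if_pos hT]
      by_cases h1 : V F < 1 ∧ V G < 1
      · rw [if_pos ⟨hT, h1⟩]
        have e1 : 0 < -Real.log (V F) := by
          have := Real.log_neg hVF h1.1
          linarith
        have e2 : 0 < -Real.log (V G) := by
          have := Real.log_neg hVG h1.2
          linarith
        unfold ct
        rw [max_eq_right (le_min e1.le e2.le)]
        rcases le_total (V G) (V F) with h2 | h2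
        · rw [max_eq_left h2, min_eq_left (neg_le_neg (Real.log_le_log hVG h2)), neg_neg]
        · rw [max_eq_right h2, min_eq_right (neg_le_neg (Real.log_le_log hVF h2)), neg_neg]
      · rw [if_neg (fun h => h1 h.2), Real.log_one]
        have h2 : 1 ≤ V F ∨ 1 ≤ V G := by
          by_contra hc
          push Not at hc
          exact h1 hc
        have h3 : min (-Real.log (V F)) (-Real.log (V G)) ≤ 0 := by
          rcases h2 with h2 | h2
          · exact (min_le_left _ _).trans (neg_nonpos.2 (Real.log_nonneg h2))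
          · exact (min_le_right _ _).trans (neg_nonpos.2 (Real.log_nonneg h2))
        unfold ct
        rw [max_eq_left h3, neg_zero]
    · rw [if_neg hT, if_neg (fun h => hT h.1), Real.log_one]
  have hfin : {V : FinitePlace M | V (a V) ≠ 1}.Finite := by
    refine T.finite_toSet.subset fun V hV => ?_
    by_contra hT
    exact hV (by rw [hav, if_neg (fun h => hT h.1)])
  obtain ⟨u, l, hu0, hl0, hu1, hu2, hu3⟩ := hC₀ a (fun _ => 1) ha0 hfin (fun _ => one_pos)
  set s := ∑ V ∈ T, ct V F G with hs
  have hfs : ∑ᶠ V : FinitePlace M, Real.log (V (a V)) = -s := by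
    rw [finsum_eq_sum_of_support_subset (s := T)]
    · rw [hs, ← Finset.sum_neg_distrib]
      exact Finset.sum_congr rfl fun V hV => by rw [hlog, if_pos hV]
    · intro V hV
      by_contra hT
      exact hV (by show Real.log (V (a V)) = 0; rw [hlog]; exact if_neg hT)
  rw [hfs] at hu3
  simp only [Real.log_one, mul_zero, Finset.sum_const_zero, div_one] at hu2 hu3
  -- the product formula
  have hpf := NumberField.prod_abs_eq_one hu0
  have hwl : ∀ w : InfinitePlace M, Real.log (w u) ≤ Real.log l := fun w =>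
    Real.log_le_log (InfinitePlace.pos_iff.2 hu0) (hu2 w)
  have hinf : ∑ w : InfinitePlace M, (w.mult : ℝ) * Real.log (w u)
      ≤ Module.finrank ℚ M * Real.log l := by
    have e1 : (Module.finrank ℚ M : ℝ) = ∑ w : InfinitePlace M, (w.mult : ℝ) := by
      rw [← InfinitePlace.sum_mult_eq]
      push_cast
      rfl
    rw [e1, Finset.sum_mul]
    exact Finset.sum_le_sum fun w _ => mul_le_mul_of_nonneg_left (hwl w) (Nat.cast_nonneg _)
  have hterm : ∀ V : FinitePlace M, V (a V) ≤ N * V u := by
    intro V₀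
    have hsup := FinitePlace.hasFiniteMulSupport (K := M) hu0
    set U : Finset (FinitePlace M) := hsup.toFinset ∪ T ∪ {V₀} with hU
    have e1 : ∏ᶠ V : FinitePlace M, V u = ∏ V ∈ U, V u := by
      refine finprod_eq_prod_of_mulSupport_subset _ ?_
      intro V hV
      rw [hU]
      simp only [Finset.coe_union, Set.Finite.coe_toFinset]
      exact Or.inl (Or.inl hV)
    rw [e1] at hpf
    have e2 : ∑ w : InfinitePlace M, (w.mult : ℝ) * Real.log (w u)
        + ∑ V ∈ U, Real.log (V u) = 0 := by
      have e3 := congrArg Real.log hpf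
      rw [Real.log_one, Real.log_mul
        (Finset.prod_ne_zero_iff.2 fun w _ => pow_ne_zero _ (InfinitePlace.pos_iff.2 hu0).ne')
        (Finset.prod_ne_zero_iff.2 fun V _ => (fp_pos V hu0).ne'),
        Real.log_prod (fun w _ => pow_ne_zero _ (InfinitePlace.pos_iff.2 hu0).ne'),
        Real.log_prod (fun V _ => (fp_pos V hu0).ne')] at e3
      rw [← e3]
      congr 1
      exact Finset.sum_congr rfl fun w _ => by rw [Real.log_pow]
    have e4 : ∑ V ∈ U, Real.log (V (a V)) = -s := by
      rw [← hfs]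
      symm
      refine finsum_eq_sum_of_support_subset _ ?_
      intro V hV
      have hT : V ∈ T := by
        by_contra hT
        exact hV (by show Real.log (V (a V)) = 0; rw [hlog]; exact if_neg hT)
      rw [hU]
      simp only [Finset.coe_union, Set.mem_union, Finset.mem_coe]
      exact Or.inl (Or.inr hT)
    have e5 : ∑ V ∈ U, (Real.log (V (a V)) - Real.log (V u)) ≤ C₀ := by
      rw [Finset.sum_sub_distrib, e4]
      linarith
    have e6 : ∀ V ∈ U, 0 ≤ Real.log (V (a V)) - Real.log (V u) := fun V _ =>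
      sub_nonneg.2 (Real.log_le_log (fp_pos V hu0) (hu1 V))
    have e7 : Real.log (V₀ (a V₀)) - Real.log (V₀ u) ≤ C₀ := by
      refine (Finset.single_le_sum e6 ?_).trans e5
      rw [hU]
      simp
    have e8 : V₀ (a V₀) ≤ Real.exp C₀ * V₀ u := by
      have h1 : Real.log (V₀ (a V₀)) ≤ C₀ + Real.log (V₀ u) := by linarith
      rw [Real.log_le_iff_le_exp (fp_pos V₀ (ha0 V₀)), Real.exp_add,
        Real.exp_log (fp_pos V₀ hu0)] at h1
      exact h1
    exact e8.trans (mul_le_mul_of_nonneg_right (Nat.le_ceil _) (apply_nonneg _ _))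
  refine ⟨u, hu0, fp_int fun V => (hu1 V).trans (ha1 V), fun V hV => ?_, fun w => ?_,
    fun V x hx1 hx2 => ?_⟩
  · have h1 := Real.log_le_log (fp_pos V hu0) (hu1 V)
    rw [hlog, if_pos hV] at h1
    linarith
  · have h1 : (Module.finrank ℚ M : ℝ) * Real.log (w u) ≤ Module.finrank ℚ M * Real.log l :=
      mul_le_mul_of_nonneg_left (hwl w) (Nat.cast_nonneg _)
    have h2 := le_max_left C₀ 0
    linarith
  · have h1 := fixB N V (a V) u (ha0 V) hu0 (hterm V)
    have h2 : V x ≤ V (a V) := by
      rw [hav]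
      split_ifs with h3
      · exact hx2 h3.1
      · exact hx1
    rw [map_div₀, map_mul, div_le_one (fp_pos V hu0)]
    exact (mul_le_mul_of_nonneg_left h2 (apply_nonneg _ _)).trans h1

end Pool.Agent.Helper20.LS5
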