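import Pool.Agent.Helper9.LS5.SheetR
import Pool.Agent.Helper27.LS5.DIR

/-!
Project LS5 (MP_9a3c31_nt), row LIMD: a family of positive semidefinite forms of size `H` whose
values at every fixed nonzero integer vector are at least `c * H` has determinant at least
`c₁ * H ^ m`.
-/

set_option autoImplicit false

open Filter Topology

namespace Pool.Agent.Helper20.LS5

open Pool.Agent.Helper9.LS5 Pool.Agent.Helper54.LM

/-- the quadratic form with matrix `G` on real vectors -/
noncomputable def rf {m : ℕ} (G : Matrix (Fin m) (Fin m) ℝ) (x : Fin m → ℝ) : ℝ :=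
  ∑ i, ∑ j, x i * x j * G i j

theorem qf_eq {m : ℕ} (G : Matrix (Fin m) (Fin m) ℝ) (k : Fin m → ℤ) :
    qf G k = rf G (fun i => (k i : ℝ)) := rfl

theorem rf_smul {m : ℕ} (G : Matrix (Fin m) (Fin m) ℝ) (a : ℝ) (x : Fin m → ℝ) :
    rf (a • G) x = a * rf G x := by
  unfold rf
  rw [Finset.mul_sum]
  refine Finset.sum_congr rfl fun i _ => ?_
  rw [Finset.mul_sum]
  refine Finset.sum_congr rfl fun j _ => ?_
  rw [Matrix.smul_apply, smul_eq_mul]
  ring

theorem rf_dot {m : ℕ} (G : Matrix (Fin m) (Fin m) ℝ) (x : Fin m → ℝ) :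
    x ⬝ᵥ G.mulVec x = rf G x := by
  unfold rf dotProduct Matrix.mulVec dotProduct
  refine Finset.sum_congr rfl fun i _ => ?_
  rw [Finset.mul_sum]
  refine Finset.sum_congr rfl fun j _ => ?_
  ring

theorem qf_single {m : ℕ} (G : Matrix (Fin m) (Fin m) ℝ) (i : Fin m) :
    qf G (Pi.single i 1) = G i i := by
  unfold qf
  rw [Finset.sum_eq_single i]
  · rw [Finset.sum_eq_single i]
    · simp
    · intro b _ hb
      simp [Pi.single_apply, hb]
    · intro h
      exact absurd (Finset.mem_univ i) h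
  · intro b _ hb
    simp [Pi.single_apply, hb]
  · intro h
    exact absurd (Finset.mem_univ i) h

/-- the form is quadratic -/
theorem rf_add {m : ℕ} (G : Matrix (Fin m) (Fin m) ℝ) (hG : G.IsSymm) (x y : Fin m → ℝ) :
    rf G (x + y) = rf G x + 2 * (y ⬝ᵥ G.mulVec x) + rf G y := by
  rw [← rf_dot, ← rf_dot, ← rf_dot, Matrix.mulVec_add, add_dotProduct, dotProduct_add,
    dotProduct_add]
  have h : x ⬝ᵥ G.mulVec y = y ⬝ᵥ G.mulVec x := by
    rw [Matrix.dotProduct_mulVec, ← Matrix.mulVec_transpose, hG.eq, dotProduct_comm]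
  rw [h]
  ring

theorem rf_le {m : ℕ} (G : Matrix (Fin m) (Fin m) ℝ) (x : Fin m → ℝ) (δ : ℝ)
    (hx : ∀ i, |x i| ≤ δ) : rf G x ≤ δ ^ 2 * ∑ i, ∑ j, |G i j| := by
  unfold rf
  rw [Finset.mul_sum]
  refine Finset.sum_le_sum fun i _ => ?_
  rw [Finset.mul_sum]
  refine Finset.sum_le_sum fun j _ => ?_
  have h0 : 0 ≤ δ := (abs_nonneg _).trans (hx i)
  calc x i * x j * G i j ≤ |x i * x j * G i j| := le_abs_self _
    _ = |x i| * |x j| * |G i j| := by rw [abs_mul, abs_mul]
    _ ≤ δ * δ * |G i j| := by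
        refine mul_le_mul_of_nonneg_right ?_ (abs_nonneg _)
        exact mul_le_mul (hx i) (hx j) (abs_nonneg _) h0
    _ = δ ^ 2 * |G i j| := by ring

theorem rf_cont {m : ℕ} (G : Matrix (Fin m) (Fin m) ℝ) : Continuous (rf G) := by
  unfold rf
  fun_prop

/-- nonnegative on integer vectors, hence positive semidefinite -/
theorem rf_nonneg {m : ℕ} (G : Matrix (Fin m) (Fin m) ℝ) (h : ∀ k : Fin m → ℤ, 0 ≤ qf G k)
    (x : Fin m → ℝ) : 0 ≤ rf G x := by
  have h1 : Tendsto (fun n : ℕ => (fun i : Fin m => (⌊(n : ℝ) * x i⌋ : ℝ) / n)) atTop (𝓝 x) := by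
    rw [tendsto_pi_nhds]
    intro i
    have hz : Tendsto (fun n : ℕ => x i - 1 / (n : ℝ)) atTop (𝓝 (x i)) := by
      have := tendsto_one_div_atTop_nhds_zero_nat (𝕜 := ℝ)
      simpa using this.const_sub (x i)
    refine tendsto_of_tendsto_of_tendsto_of_le_of_le' hz tendsto_const_nhds ?_ ?_
    · filter_upwards [eventually_gt_atTop 0] with n hn
      have hn' : (0 : ℝ) < n := by exact_mod_cast hn
      rw [le_div_iff₀ hn', sub_mul, one_div, inv_mul_cancel₀ hn'.ne']
      have := Int.lt_floor_add_one ((n : ℝ) * x i)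
      nlinarith
    · filter_upwards [eventually_gt_atTop 0] with n hn
      have hn' : (0 : ℝ) < n := by exact_mod_cast hn
      rw [div_le_iff₀ hn']
      have := Int.floor_le ((n : ℝ) * x i)
      nlinarith
  have h2 := ((rf_cont G).tendsto x).comp h1
  refine ge_of_tendsto' h2 fun n => ?_
  have h3 : rf G (fun i : Fin m => (⌊(n : ℝ) * x i⌋ : ℝ) / n) =
      (1 / (n : ℝ)) ^ 2 * qf G (fun i => ⌊(n : ℝ) * x i⌋) := by
    unfold rf qf
    rw [Finset.mul_sum]
    refine Finset.sum_congr rfl fun i _ => ?_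
    rw [Finset.mul_sum]
    refine Finset.sum_congr rfl fun j _ => ?_
    ring
  show 0 ≤ rf G (fun i : Fin m => (⌊(n : ℝ) * x i⌋ : ℝ) / n)
  rw [h3]
  exact mul_nonneg (sq_nonneg _) (h _)

/-- a symmetric form with values at least `c` at all nonzero integer vectors has positive
determinant -/
theorem det_pos' {m : ℕ} (G : Matrix (Fin m) (Fin m) ℝ) (hG : G.IsSymm) (c : ℝ) (hc : 0 < c)
    (h : ∀ k : Fin m → ℤ, k ≠ 0 → c ≤ qf G k) : 0 < G.det := by
  have h0 : ∀ k : Fin m → ℤ, 0 ≤ qf G k := by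
    intro k
    by_cases hk : k = 0
    · rw [hk, qf_eq]
      unfold rf
      simp
    · exact hc.le.trans (h k hk)
  have hps : G.PosSemidef := by
    refine Matrix.PosSemidef.of_dotProduct_mulVec_nonneg ?_ ?_
    · rw [Matrix.IsHermitian, Matrix.conjTranspose_eq_transpose_of_trivial]
      exact hG
    · intro x
      rw [star_trivial, rf_dot]
      exact rf_nonneg G h0 x
  refine lt_of_le_of_ne hps.det_nonneg ?_
  intro hdet
  obtain ⟨x, hx, hGx⟩ := Matrix.exists_mulVec_eq_zero_iff.mpr hdet.symm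
  obtain ⟨i, hi⟩ := Function.ne_iff.mp hx
  have hi' : x i ≠ 0 := hi
  set S := ∑ i, ∑ j, |G i j| with hS
  have hS0 : 0 ≤ S := Finset.sum_nonneg fun _ _ => Finset.sum_nonneg fun _ _ => abs_nonneg _
  obtain ⟨Q, hQ⟩ := exists_nat_gt (max (1 / |x i|) (S / c + 1))
  have hQ1 : 1 / |x i| < Q := lt_of_le_of_lt (le_max_left _ _) hQ
  have hQ2 : S / c + 1 < Q := lt_of_le_of_lt (le_max_right _ _) hQ
  have hSc : 0 ≤ S / c := div_nonneg hS0 hc.le
  have hQ0 : (1 : ℝ) < Q := by linarith
  have hQn : 1 ≤ Q := by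
    have : (1 : ℝ) ≤ Q := hQ0.le
    exact_mod_cast this
  obtain ⟨n, hn1, -, hn⟩ := Pool.Agent.Helper27.LS5.DIR m Q x hQn
  choose k hk using hn
  have hn0 : (1 : ℝ) ≤ n := by exact_mod_cast hn1
  have hk0 : k ≠ 0 := by
    intro hk0
    have h1 := hk i
    rw [hk0] at h1
    simp only [Pi.zero_apply, Int.cast_zero, sub_zero, abs_mul, Nat.abs_cast] at h1
    have hxi : 0 < |x i| := abs_pos.mpr hi'
    have h2 : |x i| ≤ 1 / (Q : ℝ) := by nlinarith
    rw [div_lt_iff₀ hxi] at hQ1
    rw [le_div_iff₀ (by linarith)] at h2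
    linarith
  have h1 := h k hk0
  have h2 : qf G k = rf G (fun i => (k i : ℝ) - n * x i) := by
    have e : (fun i => (k i : ℝ)) = (n : ℝ) • x + (fun i => (k i : ℝ) - n * x i) := by
      funext i
      simp
    rw [qf_eq]
    conv_lhs => rw [e]
    rw [rf_add G hG, Matrix.mulVec_smul, hGx, smul_zero, dotProduct_zero, mul_zero, add_zero,
      ← rf_dot, Matrix.mulVec_smul, hGx, smul_zero, dotProduct_zero, zero_add]
  have h3 := rf_le G (fun i => (k i : ℝ) - n * x i) (1 / (Q : ℝ)) (fun i => by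
    rw [abs_sub_comm]
    exact hk i)
  have h4 : (1 / (Q : ℝ)) ^ 2 * S < c := by
    have hQp : (0 : ℝ) < Q := by linarith
    rw [div_pow, one_pow, div_mul_eq_mul_div, one_mul, div_lt_iff₀ (by positivity)]
    have h5 : S < c * Q := by
      have : S / c < Q := by linarith
      rw [div_lt_iff₀ hc] at this
      linarith
    nlinarith
  rw [h2] at h1
  linarith

/-- row LIMD -/
theorem LIMD : ST_LIMD := by
  intro m φ G H c M hc hH hG hM hk
  have hpos : ∀ᶠ j in (φ : Filter ℕ), 0 < H j := hH.eventually_gt_atTop 0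
  -- the entries are bounded
  have hb : ∀ i j : Fin m, ∀ᶠ n in (φ : Filter ℕ),
      ((H n)⁻¹ • G n) i j ∈ Set.Icc (-|M|) |M| := by
    intro i j
    filter_upwards [hpos, hG, hM i, hM j] with n hn hGn hi hj
    have hii := hGn.2 (Pi.single i 1)
    rw [qf_single] at hii
    have hjj := hGn.2 (Pi.single j 1)
    rw [qf_single] at hjj
    have hsym : G n j i = G n i j := hGn.1.apply i j
    have e1 : ∀ s : ℤ, qf (G n) (Pi.single i 1 + s • Pi.single j 1) =
        G n i i + 2 * s * G n i j + s ^ 2 * G n j j := by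
      intro s
      have e0 : (fun l => ((Pi.single i 1 + s • Pi.single j 1 : Fin m → ℤ) l : ℝ)) =
          (fun l => ((Pi.single i 1 : Fin m → ℤ) l : ℝ)) +
            (s : ℝ) • (fun l => ((Pi.single j 1 : Fin m → ℤ) l : ℝ)) := by
        funext l
        simp
      rw [qf_eq, e0, rf_add _ hGn.1, ← qf_eq, qf_single]
      have e2 : rf (G n) ((s : ℝ) • (fun l => ((Pi.single j 1 : Fin m → ℤ) l : ℝ))) =
          s ^ 2 * G n j j := by
        rw [← rf_dot, Matrix.mulVec_smul, smul_dotProduct, dotProduct_smul, rf_dot, ← qf_eq,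
          qf_single, smul_eq_mul, smul_eq_mul]
        ring
      have e3 : ((s : ℝ) • (fun l => ((Pi.single j 1 : Fin m → ℤ) l : ℝ))) ⬝ᵥ
          (G n).mulVec (fun l => ((Pi.single i 1 : Fin m → ℤ) l : ℝ)) = s * G n i j := by
        rw [smul_dotProduct, smul_eq_mul]
        congr 1
        have e4 : (fun l => ((Pi.single i 1 : Fin m → ℤ) l : ℝ)) = Pi.single i (1 : ℝ) := by
          funext l
          by_cases hl : l = i
          · subst hl
            simp
          · simp [Pi.single_apply, hl]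
        have e5 : (fun l => ((Pi.single j 1 : Fin m → ℤ) l : ℝ)) = Pi.single j (1 : ℝ) := by
          funext l
          by_cases hl : l = j
          · subst hl
            simp
          · simp [Pi.single_apply, hl]
        rw [e4, e5, Matrix.mulVec_single_one, single_one_dotProduct]
        exact hsym
      rw [e2, e3]
      ring
    have hp' := hGn.2 (Pi.single i 1 + (1 : ℤ) • Pi.single j 1)
    have hm' := hGn.2 (Pi.single i 1 + (-1 : ℤ) • Pi.single j 1)
    rw [e1] at hp' hm'
    push_cast at hp' hm'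
    have hMM : M * H n ≤ |M| * H n := mul_le_mul_of_nonneg_right (le_abs_self M) hn.le
    rw [Matrix.smul_apply, smul_eq_mul, Set.mem_Icc]
    have hu : G n i j ≤ |M| * H n := by linarith
    have hl : -(|M| * H n) ≤ G n i j := by linarith
    constructor
    · rw [← sub_nonneg]
      have : (H n)⁻¹ * G n i j - -|M| = (H n)⁻¹ * (G n i j + |M| * H n) := by
        rw [mul_add, mul_comm |M| (H n), ← mul_assoc, inv_mul_cancel₀ hn.ne', one_mul,
          sub_neg_eq_add]
      rw [this]
      exact mul_nonneg (inv_nonneg.mpr hn.le) (by linarith)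
    · rw [← sub_nonneg]
      have : |M| - (H n)⁻¹ * G n i j = (H n)⁻¹ * (|M| * H n - G n i j) := by
        rw [mul_sub, mul_comm |M| (H n), ← mul_assoc, inv_mul_cancel₀ hn.ne', one_mul]
      rw [this]
      exact mul_nonneg (inv_nonneg.mpr hn.le) (by linarith)
  -- the limit
  have hlim : ∀ i j : Fin m, ∃ g : ℝ,
      Tendsto (fun n => ((H n)⁻¹ • G n) i j) (φ : Filter ℕ) (𝓝 g) := by
    intro i j
    obtain ⟨g, -, hg⟩ := isCompact_Icc.ultrafilter_le_nhds'
      (Ultrafilter.map (fun n => ((H n)⁻¹ • G n) i j) φ) (hb i j)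
    exact ⟨g, hg⟩
  choose L hL using hlim
  have hT : Tendsto (fun n => (H n)⁻¹ • G n) (φ : Filter ℕ) (𝓝 (Matrix.of L)) := by
    refine tendsto_pi_nhds.mpr fun i => tendsto_pi_nhds.mpr fun j => ?_
    exact hL i j
  have hsymm : (Matrix.of L).IsSymm := by
    refine Matrix.IsSymm.ext fun i j => ?_
    refine tendsto_nhds_unique (hL j i) ((hL i j).congr' ?_)
    filter_upwards [hG] with n hGn
    rw [Matrix.smul_apply, Matrix.smul_apply]
    congr 1
    exact hGn.1.apply j i
  have hqf : ∀ k : Fin m → ℤ, k ≠ 0 → c ≤ qf (Matrix.of L) k := by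
    intro k hk0
    have h1 : Tendsto (fun n => qf ((H n)⁻¹ • G n) k) (φ : Filter ℕ)
        (𝓝 (qf (Matrix.of L) k)) := by
      unfold qf
      refine tendsto_finset_sum _ fun i _ => tendsto_finset_sum _ fun j _ => ?_
      exact (hL i j).const_mul _
    refine ge_of_tendsto h1 ?_
    filter_upwards [hk k hk0, hpos] with n hn hn0
    rw [qf_eq, rf_smul, ← qf_eq]
    rw [← div_eq_inv_mul, le_div_iff₀ hn0]
    exact hn
  have hdet := det_pos' (Matrix.of L) hsymm c hc hqf
  refine ⟨(Matrix.of L).det / 2, by linarith, ?_⟩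
  have hd : Tendsto (fun n => ((H n)⁻¹ • G n).det) (φ : Filter ℕ) (𝓝 (Matrix.of L).det) :=
    ((Continuous.matrix_det continuous_id).tendsto _).comp hT
  filter_upwards [hd.eventually (lt_mem_nhds (half_lt_self hdet)), hpos] with n hn hn0
  rw [Matrix.det_smul, Fintype.card_fin] at hn
  have hp : 0 < H n ^ m := pow_pos hn0 m
  have h1 : (Matrix.of L).det / 2 * H n ^ m ≤ ((H n)⁻¹ ^ m * (G n).det) * H n ^ m :=
    mul_le_mul_of_nonneg_right hn.le hp.le
  have h2 : ((H n)⁻¹ ^ m * (G n).det) * H n ^ m = (G n).det := by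
    rw [inv_pow]
    field_simp
  linarith

end Pool.Agent.Helper20.LS5
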