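import Pool.Agent.Helper9.LS5.SheetN
import Pool.Agent.Helper71.LK.KFP
import Pool.Agent.Helper94.SUBW.SLW
import Pool.Agent.Helper89.SUBK.PRK
import Pool.Agent.Helper9.MTK.Hgt

/-!
Project LS5 (MP_9a3c31_nt): finite places not above `S`, `S`-integers and norms.
-/

set_option autoImplicit false

namespace Pool.Agent.Helper20.LS5

open NumberField IsDedekindDomain Filter Finset Pool.Agent.Helper9.LS5 Pool.Agent.Helper42.LK
  Pool.Agent.Helper70.SUB Pool.Agent.Helper77.SUBK Pool.Agent.Helper9.MTK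

section fp

variable {M : Type} [Field M] [NumberField M]

theorem fp_pos (V : FinitePlace M) {z : M} (hz : z ≠ 0) : 0 < V z := FinitePlace.pos_iff.2 hz

theorem fp_nat_le (V : FinitePlace M) (n : ℕ) : V (n : M) ≤ 1 :=
  fin_le_one V (isIntegral_natCast n)

/-- elements with no pole are integral -/
theorem fp_int {z : M} (h : ∀ V : FinitePlace M, V z ≤ 1) : IsIntegral ℤ z := by
  have hv : ∀ v : HeightOneSpectrum (𝓞 M), v.valuation M z ≤ 1 := by
    intro v
    by_cases hz : z = 0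
    · rw [hz, map_zero]
      exact zero_le_one
    have h1 := h (FinitePlace.mk v)
    rw [kfp_val (FinitePlace.mk v) hz, FinitePlace.maximalIdeal_mk] at h1
    have hq : (1 : ℝ) < ((Ideal.absNorm v.asIdeal : ℕ) : ℝ) := by
      exact_mod_cast HeightOneSpectrum.one_lt_absNorm v
    have hne : v.valuation M z ≠ 0 := (Valuation.ne_zero_iff _).mpr hz
    have h2 : WithZero.log (v.valuation M z) ≤ 0 := by
      by_contra hc
      push Not at hc
      exact absurd h1 (not_le.2 (one_lt_zpow₀ hq hc))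
    exact (WithZero.log_le_log hne one_ne_zero).1 (by rw [WithZero.log_one]; exact h2)
  obtain ⟨y, hy⟩ := HeightOneSpectrum.mem_integers_of_valuation_le_one M z hv
  rw [← hy]
  exact y.2

theorem fp_coprime (V : FinitePlace M) {p m : ℕ} (h : Nat.Coprime p m) (hp : V (p : M) < 1) :
    V (m : M) = 1 := by
  refine le_antisymm (fp_nat_le V m) ?_
  obtain ⟨a, b, hab⟩ := Nat.isCoprime_iff_coprime.2 h
  have h1 : (a : M) * (p : M) + (b : M) * (m : M) = 1 := by exact_mod_cast congrArg (Int.cast (R := M)) hab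
  have ha : V (a : M) ≤ 1 := fin_le_one V (isIntegral_intCast a)
  have hb : V (b : M) ≤ 1 := fin_le_one V (isIntegral_intCast b)
  have h2 := FinitePlace.add_le V ((a : M) * (p : M)) ((b : M) * (m : M))
  rw [h1, map_one, map_mul, map_mul] at h2
  have h3 : V (a : M) * V (p : M) < 1 := by
    have := apply_nonneg V (p : M)
    nlinarith [apply_nonneg V (a : M)]
  rcases le_max_iff.1 h2 with h4 | h4
  · linarith
  · have := apply_nonneg V (m : M)
    nlinarith

theorem fp_sm {S : Finset ℕ} {V : FinitePlace M} (hV : Aw S V) {n : ℕ} (hn : Sm S n) :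
    V (n : M) = 1 := by
  have h1 : (n : M) = (n.primeFactorsList.map (fun q : ℕ => (q : M))).prod := by
    conv_lhs => rw [← Nat.prod_primeFactorsList hn.1]
    exact Nat.cast_list_prod _
  rw [h1, map_list_prod, List.map_map]
  refine List.prod_eq_one ?_
  intro x hx
  obtain ⟨q, hq, rfl⟩ := List.mem_map.1 hx
  exact hV q (hn.2 q (Nat.prime_of_mem_primeFactorsList hq) (Nat.dvd_of_mem_primeFactorsList hq))

/-- the `S`-part of a natural number -/
theorem split (S : Finset ℕ) (hS : ∀ p ∈ S, p.Prime) : ∀ n : ℕ, n ≠ 0 →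
    ∃ s m : ℕ, n = s * m ∧ Sm S s ∧ m ≠ 0 ∧ ∀ p ∈ S, ¬ p ∣ m := by
  intro n
  induction n using Nat.strong_induction_on with
  | _ n ih =>
    intro hn
    by_cases h : ∃ p ∈ S, p ∣ n
    · obtain ⟨p, hp, k, rfl⟩ := h
      have hk : k ≠ 0 := by
        rintro rfl
        exact hn (by simp)
      have hpp := hS p hp
      have hlt : k < p * k := by
        have := hpp.two_le
        have := Nat.pos_of_ne_zero hk
        nlinarith
      obtain ⟨s, m, h1, h2, h3, h4⟩ := ih k hlt hk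
      refine ⟨p * s, m, by rw [h1]; ring, ⟨mul_ne_zero hpp.ne_zero h2.1, ?_⟩, h3, h4⟩
      intro q hq hqd
      rcases (hq.dvd_mul).1 hqd with h5 | h5
      · rw [(Nat.prime_dvd_prime_iff_eq hq hpp).1 h5]
        exact hp
      · exact h2.2 q hq h5
    · push Not at h
      exact ⟨1, n, by simp, ⟨one_ne_zero, fun q hq hqd => absurd (Nat.dvd_one.1 hqd) hq.one_lt.ne'⟩,
        hn, h⟩

theorem si_le {S : Finset ℕ} {z : M} (hz : SI S z) {V : FinitePlace M} (hV : Aw S V) :
    V z ≤ 1 := by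
  obtain ⟨n, hn, hi⟩ := hz
  have h1 := fin_le_one V hi
  rwa [map_mul, fp_sm hV hn, one_mul] at h1

theorem si_of {S : Finset ℕ} (hS : ∀ p ∈ S, p.Prime) {z : M}
    (h : ∀ V : FinitePlace M, Aw S V → V z ≤ 1) : SI S z := by
  obtain ⟨n, hn, -, hi⟩ := NumberField.exists_nat_le_mulHeight₁ z
  obtain ⟨s, m, h1, h2, h3, h4⟩ := split S hS n hn
  refine ⟨s, h2, fp_int fun V => ?_⟩
  by_cases hV : Aw S V
  · rw [map_mul, fp_sm hV h2, one_mul]
    exact h V hV
  · unfold Aw at hV
    push Not at hV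
    obtain ⟨p, hp, hpV⟩ := hV
    have h5 : V (p : M) < 1 := lt_of_le_of_ne (fp_nat_le V p) hpV
    have h6 : V (m : M) = 1 := fp_coprime V (((hS p hp).coprime_iff_not_dvd).2 (h4 p hp)) h5
    have h7 := fin_le_one V hi
    have h8 : (n : M) * z = (m : M) * ((s : M) * z) := by
      rw [h1]
      push_cast
      ring
    rw [h8, map_mul, h6, one_mul] at h7
    exact h7

/-- (SIV) -/
theorem SIV {S : Finset ℕ} (hS : ∀ p ∈ S, p.Prime) (z : M) :
    SI S z ↔ ∀ V : FinitePlace M, Aw S V → V z ≤ 1 :=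
  ⟨fun h _ hV => si_le h hV, si_of hS⟩

end fp

section norm

variable {M : Type} [Field M] [NumberField M] [IsGalois ℚ M] {S : Finset ℕ}

/-- (NV) the norm bounds the contributions of the places not above `S` -/
theorem nv_sum (hHFP : ST_HFP) (P : PF S M) (hS : ∀ p ∈ S, p.Prime) {y : M} (hy0 : y ≠ 0)
    (hy : SI S y) (T : Finset (FinitePlace M)) (hT : ∀ V ∈ T, Aw S V) :
    ∑ V ∈ T, -Real.log (V y) ≤ 2 * (Module.finrank ℚ M *
      Real.log (∏ v ∈ plc S, ∏ σ : M ≃ₐ[ℚ] M, P.nv v (σ y))) := by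
  classical
  obtain ⟨n, hn, hi⟩ := hy
  obtain ⟨z, hz⟩ : ∃ z : M, z = (n : M) * y := ⟨_, rfl⟩
  rw [← hz] at hi
  have hn0 : (n : M) ≠ 0 := by exact_mod_cast hn.1
  have hz0 : z ≠ 0 := by rw [hz]; exact mul_ne_zero hn0 hy0
  have hAV := Pool.Agent.Helper15.SUB.AV
  obtain ⟨-, g2, -⟩ := Pool.Agent.Helper9.SUBK.st_GALA M S P hS
  -- the norm
  have hN : IsIntegral ℤ (Algebra.norm ℚ z) := Algebra.isIntegral_norm ℚ hi
  obtain ⟨k, hk⟩ := IsIntegrallyClosed.isIntegral_iff.1 hN
  have hk' : ((k : ℤ) : ℚ) = Algebra.norm ℚ z := by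
    rw [← hk]
    simp
  have hk0 : k ≠ 0 := by
    intro h
    rw [h, Int.cast_zero] at hk'
    exact hz0 (Algebra.norm_eq_zero_iff.1 hk'.symm)
  have hprod2 : ∏ σ : M ≃ₐ[ℚ] M, σ z = (k : M) := by
    have h5 := Algebra.norm_eq_prod_automorphisms ℚ z
    rw [← hk'] at h5
    rw [← h5]
    simp
  obtain ⟨s, m, h1, h2, h3, h4⟩ := split S hS k.natAbs (Int.natAbs_ne_zero.2 hk0)
  have hs0 : (s : ℝ) ≠ 0 := by exact_mod_cast h2.1
  -- the product of the absolute values
  have hav : ∏ v ∈ plc S, av v (k : ℚ) = m := by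
    have h5 := Pool.Agent.Helper15.SUB.prod_av S hS k hk0
    have h6 : ∏ p ∈ S, p ^ k.natAbs.factorization p = s := by
      rw [← (Pool.Agent.Helper15.SUB.prod_fact S s h2.1).2 h2.2]
      refine Finset.prod_congr rfl fun p hp => ?_
      rw [h1, Nat.factorization_mul h2.1 h3, Finsupp.add_apply,
        Nat.factorization_eq_zero_of_not_dvd (h4 p hp), add_zero]
    rw [h6, h1] at h5
    push_cast at h5
    have h7 : (∏ v ∈ plc S, av v (k : ℚ)) * s = m * s := by rw [h5]; ring
    exact mul_right_cancel₀ hs0 h7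
  have hpr : ∏ v ∈ plc S, ∏ σ : M ≃ₐ[ℚ] M, P.nv v (σ y) = m := by
    have h5 := Pool.Agent.Helper89.SUBK.prod_mul P (n : M) y
    rw [← hz] at h5
    have h6 : ∏ v ∈ plc S, ∏ σ : M ≃ₐ[ℚ] M, P.nv v (σ (n : M)) = 1 := by
      rw [← Pool.Agent.Helper89.SUBK.prod_nat hAV P hS hn]
      exact Finset.prod_congr rfl fun v _ => Finset.prod_congr rfl fun σ _ => by rw [map_natCast]
    rw [h6, one_mul] at h5
    rw [← h5, ← hav]
    refine Finset.prod_congr rfl fun v hv => ?_
    rw [g2 v hv z, ← hk']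
  rw [hpr]
  have hm1 : (1 : ℝ) ≤ m := by exact_mod_cast Nat.one_le_iff_ne_zero.2 h3
  have hm0 : (m : M) ≠ 0 := by exact_mod_cast h3
  -- the places
  have hle : ∀ V ∈ T, -Real.log (V y) ≤ |Real.log (V (m : M))| := by
    intro V hV
    have e1 : V y = V z := by rw [hz, map_mul, fp_sm (hT V hV) hn, one_mul]
    have e2 : V (k : M) = V (m : M) := by
      have h5 : V (k : M) = V ((k.natAbs : ℕ) : M) := by
        rcases Int.natAbs_eq k with h | h
        · conv_lhs => rw [h]
          rw [Int.cast_natCast]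
        · conv_lhs => rw [h]
          rw [Int.cast_neg, Int.cast_natCast, map_neg_eq_map]
      rw [h5, h1]
      push_cast
      rw [map_mul, fp_sm (hT V hV) h2, one_mul]
    have e3 : V (k : M) ≤ V z := by
      rw [← hprod2, ← Finset.mul_prod_erase _ (fun σ : M ≃ₐ[ℚ] M => σ z) (Finset.mem_univ 1),
        map_mul, AlgEquiv.one_apply]
      have h5 : V (∏ σ ∈ (Finset.univ : Finset (M ≃ₐ[ℚ] M)).erase 1, σ z) ≤ 1 :=
        fin_le_one V (IsIntegral.prod _ fun σ _ => hi.map (σ : M →+* M).toIntAlgHom)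
      have h6 := apply_nonneg V z
      nlinarith
    rw [e2, ← e1] at e3
    have h7 := Real.log_le_log (fp_pos V hm0) e3
    have h8 := neg_le_abs (Real.log (V (m : M)))
    linarith
  refine (Finset.sum_le_sum hle).trans ((hHFP M (m : M) T).2.trans ?_)
  have h5 : Height.mulHeight₁ (m : M) ≤ (m : ℝ) ^ Module.finrank ℚ M :=
    hub_int (isIntegral_natCast m) hm1 fun f => by rw [map_natCast, Complex.norm_natCast]
  have h6 : Height.logHeight₁ (m : M) ≤ Module.finrank ℚ M * Real.log m := by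
    rw [← Real.log_pow]
    exact Real.log_le_log (lt_of_lt_of_le one_pos (Height.one_le_mulHeight₁ _)) h5
  linarith

end norm

end Pool.Agent.Helper20.LS5
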